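import Mathlib
import Pool.Agent.W838.RC.TStar
import Pool.Agent.H632R3.DihFam

set_option autoImplicit false

/-!
# MP_d87a8f_pr, Q1: groups with a large abelian subgroup have no cutoff at `t_*`

The definitions (`tvDist`, `tStar`, `CutoffWhpAt`) are those of `Pool.Agent.H632R3.RCG`.

If `G` has an abelian subgroup of index `r`, then words of length at most `T` in `k` generators
represent at most `r * binom (k r + T) T` elements.  So for `κ = k / log |G| → ∞` and
`log r = o(log κ)` the walk is not mixed before time `(1 - o(1)) log |G| / log κ`, for every choice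
of the generators.  If `k` is at most a power of `log |G|` and `|G / [G, G]| ≤ |G| ^ α`, `α < 1`,
this exceeds `(1 + ε) t_*`.
-/

namespace Pool.Agent.Results.MP_d87a8f_pr.LargeAbelianSubgroup

open Filter Topology Pool.Agent.H632R3.RCG

/-- **Negative answer to Q1, for all groups with a large abelian subgroup and a small
abelianisation.** -/
theorem result :
    (∃ (G : ℕ → Type) (_ : ∀ j, Group (G j)) (_ : ∀ j, Fintype (G j)) (k : ℕ → ℕ),
      Tendsto (fun j => Nat.card (G j)) atTop atTop ∧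
      Tendsto (fun j => (k j : ℝ) / Real.log (Nat.card (G j))) atTop atTop ∧
      Tendsto (fun j => Real.log (k j) / Real.log (Nat.card (G j))) atTop (𝓝 0) ∧
      ¬ CutoffWhpAt G k (fun j => tStar (G j) (k j))) ∧
    (∀ (G : ℕ → Type) [∀ j, Group (G j)] [∀ j, Fintype (G j)] (A : ∀ j, Subgroup (G j))
      (k : ℕ → ℕ) (C α : ℝ),
      (∀ j, ∀ x ∈ A j, ∀ y ∈ A j, x * y = y * x) →
      Tendsto (fun j => Nat.card (G j)) atTop atTop →
      Tendsto (fun j => (k j : ℝ) / Real.log (Nat.card (G j))) atTop atTop →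
      Tendsto (fun j => Real.log (A j).index /
        Real.log ((k j : ℝ) / Real.log (Nat.card (G j)))) atTop (𝓝 0) →
      (∀ᶠ j in atTop, (k j : ℝ) ≤ Real.log (Nat.card (G j)) ^ C) →
      α < 1 →
      (∀ᶠ j in atTop, (Nat.card (Abelianization (G j)) : ℝ) ≤ (Nat.card (G j) : ℝ) ^ α) →
      (∃ ε : ℝ, 0 < ε ∧ ε < 1 ∧ ∀ δ : ℝ, 0 < δ → ∀ᶠ j in atTop, ∀ Z : Fin (k j) → G j,
        1 - δ ≤ tvDist Z ((1 + ε) * tStar (G j) (k j))) ∧
      ¬ CutoffWhpAt G k (fun j => tStar (G j) (k j))) := by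
  constructor
  · exact ⟨fun j => DihedralGroup (2 ^ j), inferInstance, inferInstance,
      Pool.Agent.H632R3.Dih.kk, Pool.Agent.H632R3.Dih.card_tendsto,
      Pool.Agent.H632R3.Dih.kk_div, Pool.Agent.H632R3.Dih.kk_log_div,
      Pool.Agent.H632R3.Dih.noCutoff (fun j => 2 ^ j) Pool.Agent.H632R3.Dih.kk
        Pool.Agent.H632R3.Dih.kk_tendsto (by norm_num : (0 : ℝ) < 3) Pool.Agent.H632R3.Dih.kk_le⟩
  · intro G _ _ A k C α hA hG hκ hr hkC hα hab
    have h := Pool.Agent.W838.RC.family A hA k hG hκ hr hkC hα hab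
    exact ⟨h, Pool.Agent.W838.RC.noCutoff_of k h⟩

end Pool.Agent.Results.MP_d87a8f_pr.LargeAbelianSubgroup
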